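import Mathlib

/-!
# Correlations of a sign function on a cyclic group along progressions
-/

set_option autoImplicit false

namespace Pool.Agent.H154R5.NK

open Finset

variable {N : ℕ} [NeZero N]

/-- Autocorrelation. -/
noncomputable def R (f : ZMod N → ℝ) (t : ZMod N) : ℝ := ∑ x, f x * f (x + t)

/-- Sum along a progression of length `m`. -/
noncomputable def X (f : ZMod N → ℝ) (m : ℕ) (a t : ZMod N) : ℝ :=
  ∑ j ∈ range m, f (a + j * t)

/-- Averaged autocorrelation. -/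
noncomputable def P (f : ZMod N → ℝ) (D i : ℕ) : ℝ :=
  ∑ d ∈ Ico 1 D, ((D:ℝ) - d) * R f ((i:ZMod N) * d)

/-- Total weight. -/
noncomputable def W (D : ℕ) : ℝ := ∑ d ∈ Ico 1 D, ((D:ℝ) - d)

lemma sum_shift (g : ZMod N → ℝ) (t : ZMod N) : ∑ x, g (x + t) = ∑ x, g x :=
  Fintype.sum_equiv (Equiv.addRight t) _ _ (fun _ => rfl)

lemma corr (f : ZMod N → ℝ) (u v : ZMod N) : ∑ a, f (a + u) * f (a + v) = R f (v - u) := by
  unfold R
  rw [← sum_shift (fun x => f x * f (x + (v - u))) u]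
  refine sum_congr rfl fun a _ => ?_
  congr 2
  ring

lemma V_eq (f : ZMod N → ℝ) (hf : ∀ x, f x ^ 2 = 1) (t : ZMod N) (m : ℕ) :
    ∑ a, (X f m a t) ^ 2 = m * N + 2 * ∑ j ∈ Ico 1 m, ((m:ℝ) - j) * R f (j * t) := by
  induction m with
  | zero => simp [X]
  | succ m ih =>
    have h1 : ∀ a, (X f (m+1) a t)^2 = (X f m a t)^2 +
        2 * (∑ j ∈ range m, f (a + j*t) * f (a + m*t)) + 1 := by
      intro a
      have : X f (m+1) a t = X f m a t + f (a + m * t) := by
        unfold X; rw [sum_range_succ]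
      rw [this, add_sq, hf, ← sum_mul]
      unfold X
      ring
    have h2 : ∑ a, ∑ j ∈ range m, f (a + j*t) * f (a+m*t) = ∑ j ∈ Ico 1 (m+1), R f (j*t) := by
      rw [sum_comm]
      have h3 : ∀ j ∈ range m, ∑ a, f (a + j*t) * f (a+m*t) =
          R f (((m - j : ℕ) : ZMod N) * t) := by
        intro j hj
        rw [corr, Nat.cast_sub (mem_range.1 hj).le]
        congr 1
        ring
      rw [sum_congr rfl h3]
      refine sum_nbij' (i := fun j => m - j) (j := fun j => m - j) ?_ ?_ ?_ ?_ ?_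
      · intro j hj; simp only [mem_range, mem_Ico] at hj ⊢; omega
      · intro j hj; simp only [mem_range, mem_Ico] at hj ⊢; omega
      · intro j hj; simp only [mem_range] at hj; omega
      · intro j hj; simp only [mem_Ico] at hj; omega
      · intro j _; rfl
    simp_rw [h1]
    rw [sum_add_distrib, sum_add_distrib, ← mul_sum, h2, ih]
    have h4 : ∑ j ∈ Ico 1 (m+1), (((m+1:ℕ):ℝ) - j) * R f (j * t) =
        ∑ j ∈ Ico 1 m, ((m:ℝ) - j) * R f (j * t) + ∑ j ∈ Ico 1 (m+1), R f (j*t) := by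
      have h5 : ∑ j ∈ Ico 1 (m+1), ((m:ℝ) - j) * R f (j * t) =
          ∑ j ∈ Ico 1 m, ((m:ℝ) - j) * R f (j * t) := by
        rcases Nat.eq_zero_or_pos m with rfl | hm
        · simp
        · rw [sum_Ico_succ_top hm]; simp
      rw [← h5, ← sum_add_distrib]
      refine sum_congr rfl fun j _ => ?_
      push_cast; ring
    rw [h4]
    simp only [sum_const, card_univ, ZMod.card, nsmul_eq_mul]
    push_cast
    ring

lemma W_eq (D : ℕ) (hD : 1 ≤ D) : W D = D * (D - 1) / 2 := by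
  unfold W
  induction D, hD using Nat.le_induction with
  | base => simp
  | succ D hD ih =>
    have h : ∑ d ∈ Ico 1 (D+1), (((D+1:ℕ):ℝ) - d) = ∑ d ∈ Ico 1 (D+1), ((D:ℝ) - d) + D := by
      have : ∀ d ∈ Ico 1 (D+1), (((D+1:ℕ):ℝ) - d) = ((D:ℝ) - d) + 1 := by
        intro d _; push_cast; ring
      rw [sum_congr rfl this, sum_add_distrib]
      simp
    rw [h, sum_Ico_succ_top hD, ih]
    push_cast; ring

lemma P_ge (f : ZMod N → ℝ) (hf : ∀ x, f x ^ 2 = 1) (D i : ℕ) :
    -(D * N / 2 : ℝ) ≤ P f D i := by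
  have h := V_eq f hf (i : ZMod N) D
  have h0 : 0 ≤ ∑ a, (X f D a (i : ZMod N)) ^ 2 := sum_nonneg fun a _ => sq_nonneg _
  have h1 : ∑ j ∈ Ico 1 D, ((D:ℝ) - j) * R f ((j : ZMod N) * (i : ZMod N)) = P f D i := by
    unfold P
    refine sum_congr rfl fun j _ => ?_
    rw [mul_comm (j : ZMod N)]
  rw [h1] at h
  linarith

lemma P2 (f : ZMod N → ℝ) (hf : ∀ x, f x ^ 2 = 1) (D m i : ℕ) :
    ∑ d ∈ Ico 1 D, ((D:ℝ) - d) * ∑ a, (X f m a ((i:ZMod N) * d)) ^ 2 =
      m * N * W D + 2 * ∑ j ∈ Ico 1 m, ((m:ℝ) - j) * P f D (j * i) := by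
  have h : ∀ d ∈ Ico 1 D, ((D:ℝ) - d) * ∑ a, (X f m a ((i:ZMod N) * d)) ^ 2 =
      m * N * ((D:ℝ) - d) + 2 * ∑ j ∈ Ico 1 m, ((m:ℝ) - j) *
        (((D:ℝ) - d) * R f (((j * i : ℕ):ZMod N) * d)) := by
    intro d _
    rw [V_eq f hf]
    rw [mul_add, ← mul_assoc ((D:ℝ) - d) 2, mul_comm ((D:ℝ) - d) 2, mul_assoc 2, mul_sum]
    congr 1
    · ring
    · congr 1
      refine sum_congr rfl fun j _ => ?_
      have : (j : ZMod N) * ((i:ZMod N) * d) = ((j * i : ℕ):ZMod N) * d := by push_cast; ring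
      rw [this]; ring
  rw [sum_congr rfl h, sum_add_distrib, ← mul_sum, ← mul_sum]
  unfold W P
  congr 2
  rw [sum_comm]
  refine sum_congr rfl fun j _ => ?_
  rw [mul_sum]

lemma cross (f : ZMod N → ℝ) (D k h : ℕ) (hhk : h ≤ k) :
    ∑ d ∈ Ico 1 D, ((D:ℝ) - d) * ∑ a, (X f h (a + k * d) d) * (X f h a d) =
      ∑ i ∈ range h, ∑ j ∈ range h, P f D (k + j - i) := by
  have h1 : ∀ d ∈ Ico 1 D, ((D:ℝ) - d) * ∑ a, (X f h (a + k * d) d) * (X f h a d) =
      ∑ i ∈ range h, ∑ j ∈ range h, ((D:ℝ) - d) * R f (((k + j - i : ℕ):ZMod N) * d) := by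
    intro d _
    have h2 : ∑ a, (X f h (a + k * d) d) * (X f h a d) =
        ∑ i ∈ range h, ∑ j ∈ range h, R f (((k + j - i : ℕ):ZMod N) * d) := by
      unfold X
      have : ∀ a : ZMod N, (∑ j ∈ range h, f (a + k * d + j * d)) *
          (∑ j ∈ range h, f (a + j * d)) =
          ∑ i ∈ range h, ∑ j ∈ range h, f (a + i * d) * f (a + (k * d + j * d)) := by
        intro a
        rw [mul_comm, sum_mul_sum]
        refine sum_congr rfl fun i _ => sum_congr rfl fun j _ => ?_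
        rw [add_assoc]
      simp_rw [this]
      rw [sum_comm]
      refine sum_congr rfl fun i hi => ?_
      rw [sum_comm]
      refine sum_congr rfl fun j hj => ?_
      rw [corr]
      congr 1
      have hi' := mem_range.1 hi
      rw [Nat.cast_sub (by omega)]
      push_cast; ring
    rw [h2, mul_sum]
    refine sum_congr rfl fun i _ => ?_
    rw [mul_sum]
  rw [sum_congr rfl h1, sum_comm]
  refine sum_congr rfl fun i _ => ?_
  rw [sum_comm]
  rfl

omit [NeZero N] in
lemma X_diff (f : ZMod N → ℝ) (k h : ℕ) (a t : ZMod N) :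
    X f k (a + h * t) t - X f k a t = X f h (a + k * t) t - X f h a t := by
  have h1 : X f (k + h) a t = X f k a t + X f h (a + k * t) t := by
    unfold X
    rw [sum_range_add]
    congr 1
    refine sum_congr rfl fun j _ => ?_
    congr 1
    push_cast; ring
  have h2 : X f (h + k) a t = X f h a t + X f k (a + h * t) t := by
    unfold X
    rw [sum_range_add]
    congr 1
    refine sum_congr rfl fun j _ => ?_
    congr 1
    push_cast; ring
  rw [add_comm h k] at h2
  linarith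

omit [NeZero N] in
lemma X_abs (f : ZMod N → ℝ) (hf : ∀ x, f x ^ 2 = 1) (m : ℕ) (a t : ZMod N) :
    |X f m a t| ≤ m := by
  unfold X
  refine (abs_sum_le_sum_abs _ _).trans ?_
  have : ∀ j ∈ range m, |f (a + j * t)| ≤ 1 := by
    intro j _
    have := hf (a + j * t)
    exact abs_le.2 ⟨by nlinarith, by nlinarith⟩
  refine (sum_le_sum this).trans ?_
  simp

/-- deterministic path lemma -/
lemma path (l h s0 s1 : ℝ) (hl : 4 * h ≤ l) (hh : 0 ≤ h) (h0 : |s0| ≤ l) (h1 : |s1| ≤ l)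
    (hd : |s1 - s0| ≤ 2 * h) :
    (s1 - s0) ^ 2 ≤ (min (2 * h) (l - |s0|)) ^ 2 + (min (2 * h) (l - |s1|)) ^ 2 := by
  have key : |s1 - s0| ≤ max (l - |s0|) (l - |s1|) := by
    rcases abs_cases s0 with ⟨e0, p0⟩ | ⟨e0, p0⟩ <;> rcases abs_cases s1 with ⟨e1, p1⟩ | ⟨e1, p1⟩ <;>
    rcases abs_cases (s1 - s0) with ⟨e, p⟩ | ⟨e, p⟩ <;> rw [e] at hd ⊢ <;>
    rw [e0] at h0 ⊢ <;> rw [e1] at h1 ⊢ <;>
    first
    | (apply le_max_of_le_left; linarith)
    | (apply le_max_of_le_right; linarith)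
  have k2 : |s1 - s0| ≤ max (min (2 * h) (l - |s0|)) (min (2 * h) (l - |s1|)) := by
    rw [← min_max_distrib_left]
    exact le_min hd key
  have n0 : 0 ≤ min (2 * h) (l - |s0|) := le_min (by linarith) (by linarith)
  have n1 : 0 ≤ min (2 * h) (l - |s1|) := le_min (by linarith) (by linarith)
  rw [← sq_abs (s1 - s0)]
  rcases le_max_iff.1 k2 with hc | hc
  · have := pow_le_pow_left₀ (abs_nonneg _) hc 2
    nlinarith [sq_nonneg (min (2 * h) (l - |s1|))]
  · have := pow_le_pow_left₀ (abs_nonneg _) hc 2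
    nlinarith [sq_nonneg (min (2 * h) (l - |s0|))]

/-- dyadic summation lemma -/
lemma dyadic (u : ℝ) (hu : 0 ≤ u) (n : ℕ) :
    ∑ i ∈ range n, (min (2 * 2 ^ i) u) ^ 2 / 2 ^ i ≤ 8 * u := by
  have key : ∑ i ∈ range n, (min (2 * 2 ^ i) u) ^ 2 / 2 ^ i ≤
      if (2:ℝ) ^ n ≤ u then 4 * 2 ^ n else 8 * u - 4 * u ^ 2 / 2 ^ n := by
    induction n with
    | zero =>
      simp only [range_zero, sum_empty, pow_zero, mul_one, div_one]
      split_ifs with h
      · norm_num
      · push Not at h; nlinarith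
    | succ n ih =>
      rw [sum_range_succ]
      have hp : (0:ℝ) < 2 ^ n := by positivity
      have e2 : (2:ℝ) ^ (n+1) = 2 * 2 ^ n := by ring
      rw [e2]
      set y : ℝ := 2 ^ n with hy
      by_cases c1 : 2 * y ≤ u
      · have c2 : y ≤ u := by linarith
        rw [if_pos c2] at ih
        rw [if_pos c1, min_eq_left c1]
        have : (2 * y) ^ 2 / y = 4 * y := by field_simp; ring
        linarith
      · push Not at c1
        rw [if_neg (not_le.2 c1), min_eq_right c1.le]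
        by_cases c2 : y ≤ u
        · rw [if_pos c2] at ih
          have h3 : 3 * (u ^ 2 / y) ≤ 8 * u - 4 * y := by
            rw [← mul_div_assoc, div_le_iff₀ hp]
            nlinarith
          have h4 : 4 * u ^ 2 / (2 * y) = 2 * (u ^ 2 / y) := by field_simp; ring
          rw [h4]
          linarith
        · rw [if_neg c2] at ih
          have h4 : 4 * u ^ 2 / (2 * y) = 2 * (u ^ 2 / y) := by field_simp; ring
          have h5 : 4 * u ^ 2 / y = 4 * (u ^ 2 / y) := by ring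
          have h6 : 0 ≤ u ^ 2 / y := by positivity
          rw [h4]; rw [h5] at ih
          linarith
  refine key.trans ?_
  split_ifs with h
  · linarith [show (0:ℝ) ≤ 2 ^ n by positivity]
  · have : 0 ≤ 4 * u ^ 2 / 2 ^ n := by positivity
    linarith

end Pool.Agent.H154R5.NK
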