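import Pool.Agent.H154R5.NK.Main

/-!
# Sums along k-term progressions beyond the square root barrier
-/

set_option autoImplicit false

namespace Pool.Agent.H154R5.NK

open Finset
open scoped Classical

/-- Finitary van der Waerden theorem for sign functions, from Hales-Jewett. -/
lemma vdw (k : ℕ) (hk : 1 ≤ k) : ∃ M : ℕ, ∀ N ≥ M, ∀ F : ℕ → ℤ,
    (∀ n, 1 ≤ n → n ≤ N → F n = 1 ∨ F n = -1) →
    ∃ a d : ℕ, 1 ≤ a ∧ 1 ≤ d ∧ a + (k-1) * d ≤ N ∧ |∑ j ∈ range k, F (a + j * d)| = k := by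
  obtain ⟨ι, hι, H⟩ := Combinatorics.Line.exists_mono_in_high_dimension (Fin k) Prop
  refine ⟨1 + Fintype.card ι * (k-1), fun N hN F hF => ?_⟩
  obtain ⟨L, c, hc⟩ := H (fun v => F (1 + ∑ i, (v i : ℕ)) = 1)
  set d := (univ.filter (fun i => L.idxFun i = none)).card with hd
  set b := ∑ i, (match L.idxFun i with | none => 0 | some y => (y : ℕ)) with hb
  have hsum : ∀ x : Fin k, ∑ i, (L x i : ℕ) = b + x * d := by
    intro x
    have h1 : ∀ i, (L x i : ℕ) = (match L.idxFun i with | none => 0 | some y => (y : ℕ)) +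
        (if L.idxFun i = none then (x : ℕ) else 0) := by
      intro i
      rcases h : L.idxFun i with _ | y
      · rw [Combinatorics.Line.apply_none _ _ _ h]; simp
      · rw [Combinatorics.Line.apply_some h]; simp
    simp_rw [h1]
    rw [sum_add_distrib, ← sum_filter, sum_const, smul_eq_mul, mul_comm]
  have hd1 : 1 ≤ d := by
    obtain ⟨i, hi⟩ := L.proper
    exact card_pos.2 ⟨i, by simp [hi]⟩
  have hle : ∀ x : Fin k, b + x * d ≤ Fintype.card ι * (k-1) := by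
    intro x
    rw [← hsum x]
    calc ∑ i, (L x i : ℕ) ≤ ∑ _i : ι, (k-1) := sum_le_sum fun i _ => by
          have := (L x i).2; omega
      _ = _ := by simp
  have hk1 : k - 1 < k := by omega
  refine ⟨1 + b, d, by omega, hd1, ?_, ?_⟩
  · have := hle ⟨k-1, hk1⟩
    simp only at this
    omega
  · have hval : ∀ j ∈ range k, F (1 + b + j * d) = F (1 + b) := by
      intro j hj
      have hj' := mem_range.1 hj
      have c1 := hc ⟨j, hj'⟩
      have c2 := hc ⟨0, by omega⟩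
      simp only [hsum, zero_mul, add_zero] at c1 c2
      have e : (F (1 + (b + j * d)) = 1) = (F (1 + b) = 1) := by rw [c1, c2]
      have r1 := hF (1 + (b + j * d)) (by omega) (by
        have := hle ⟨j, hj'⟩
        simp only at this
        omega)
      have r2 := hF (1 + b) (by omega) (by
        have := hle ⟨0, by omega⟩
        simp only [zero_mul, add_zero] at this
        omega)
      rw [add_assoc]
      rcases r1 with r1 | r1 <;> rcases r2 with r2 | r2 <;> rw [r1, r2] at e ⊢ <;> norm_num at e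
    rw [sum_congr rfl hval, sum_const, card_range, nsmul_eq_mul, abs_mul]
    have r2 := hF (1 + b) (by omega) (by
        have := hle ⟨0, by omega⟩
        simp only [zero_mul, add_zero] at this
        omega)
    rcases r2 with r2 | r2 <;> rw [r2] <;> simp

/-- numerical part -/
lemma numeric (k N : ℕ) (hk : 900 ≤ Real.log k) (hN : 3 * k ^ 5 ≤ N) (I : ℕ)
    (hI1 : (2:ℝ) ^ I ≤ √k / (14 * (Real.log k / 25)))
    (hI2 : √k / (14 * (Real.log k / 25)) < (2:ℝ) ^ (I + 1))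
    (hmain : 2 * (I:ℝ) ≤ 2 * 2 ^ I * (1 / (((Nat.sqrt (k^3) + 2 : ℕ):ℝ) - 1) +
        pm N k (Nat.sqrt (k^3) + 2) (√k + Real.log k / 25)) +
      16 * ((((√k + Real.log k / 25) ^ 2 - k) + k ^ 2 / (((Nat.sqrt (k^3) + 2 : ℕ):ℝ) - 1) +
        k ^ 3 * ((Nat.sqrt (k^3) + 2 : ℕ):ℝ) / N) / (√k + Real.log k / 25)) +
        8 * 2 ^ I * k * ((Nat.sqrt (k^3) + 2 : ℕ):ℝ) / N) : False := by
  set s : ℝ := √k with hs
  set δ : ℝ := Real.log k / 25 with hδ
  set D : ℝ := ((Nat.sqrt (k^3) + 2 : ℕ):ℝ) with hD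
  have hk0 : (0:ℝ) < k := by
    by_contra h
    have : (k:ℝ) = 0 := le_antisymm (not_lt.1 h) (Nat.cast_nonneg k)
    rw [this, Real.log_zero] at hk
    linarith
  have hsk : s ^ 2 = k := Real.sq_sqrt hk0.le
  have hδ36 : 36 ≤ δ := by rw [hδ]; linarith
  have hs0 : 0 < s := Real.sqrt_pos.2 hk0
  have hlogs : Real.log k = 2 * Real.log s := by
    rw [← hsk, Real.log_pow]; norm_num
  have hls : Real.log s ≤ s - 1 := Real.log_le_sub_one_of_pos hs0
  have hδs : δ ≤ s := by rw [hδ, hlogs]; linarith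
  have hs36 : 36 ≤ s := hδ36.trans hδs
  -- bounds for D
  have hDl : s ^ 3 ≤ D - 1 := by
    have h1 : k ^ 3 < (Nat.sqrt (k^3) + 1) * (Nat.sqrt (k^3) + 1) := Nat.lt_succ_sqrt _
    have h2 : (k:ℝ) ^ 3 < (D - 1) * (D - 1) := by
      have : (k:ℝ)^3 < ((Nat.sqrt (k^3) : ℝ) + 1) * ((Nat.sqrt (k^3) : ℝ) + 1) := by
        exact_mod_cast h1
      have e : D - 1 = (Nat.sqrt (k^3) : ℝ) + 1 := by rw [hD]; push_cast; ring
      rw [e]; exact this
    have h3 : (s^3)^2 < (D-1)^2 := by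
      calc (s^3)^2 = (s^2)^3 := by ring
        _ = (k:ℝ)^3 := by rw [hsk]
        _ < _ := by rw [pow_two]; exact h2
    have h4 : 0 ≤ D - 1 := by
      rw [hD]; push_cast
      have : (0:ℝ) ≤ (Nat.sqrt (k^3) : ℝ) := Nat.cast_nonneg _
      linarith
    exact (lt_of_pow_lt_pow_left₀ 2 h4 h3).le
  have hDu : D ≤ 3 * s ^ 3 := by
    have h1 : Nat.sqrt (k^3) * Nat.sqrt (k^3) ≤ k ^ 3 := Nat.sqrt_le _
    have h2 : ((Nat.sqrt (k^3) : ℝ))^2 ≤ (s^3)^2 := by
      calc ((Nat.sqrt (k^3) : ℝ))^2 = (Nat.sqrt (k^3) : ℝ) * (Nat.sqrt (k^3) : ℝ) := by ring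
        _ ≤ (k:ℝ)^3 := by exact_mod_cast h1
        _ = (s^3)^2 := by rw [← hsk]; ring
    have h3 := le_of_sq_le_sq h2 (by positivity)
    have h4 : (1:ℝ) ≤ s ^ 3 := one_le_pow₀ (by linarith)
    rw [hD]; push_cast; linarith
  have hs3 : 0 < s ^ 3 := by positivity
  have hN' : 3 * s ^ 10 ≤ (N:ℝ) := by
    have : (3:ℝ) * k ^ 5 ≤ N := by exact_mod_cast hN
    calc 3 * s ^ 10 = 3 * (s^2)^5 := by ring
      _ = 3 * (k:ℝ)^5 := by rw [hsk]
      _ ≤ N := this
  have hN0 : (0:ℝ) < N := lt_of_lt_of_le (by positivity) hN'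
  have hDN : D / N ≤ 1 / s ^ 7 := by
    rw [div_le_div_iff₀ hN0 (by positivity)]
    calc D * s ^ 7 ≤ 3 * s ^ 3 * s ^ 7 := by gcongr
      _ = 3 * s ^ 10 := by ring
      _ ≤ 1 * N := by linarith
  have b1 : 1 / (D - 1) ≤ 1 / s ^ 3 := one_div_le_one_div_of_le hs3 hDl
  have b2 : (k:ℝ) ^ 2 / (D - 1) ≤ s := by
    calc (k:ℝ) ^ 2 / (D - 1) ≤ (k:ℝ)^2 / s ^ 3 := by gcongr
      _ = s := by rw [← hsk]; field_simp
  have b3 : 2 * (k:ℝ) ^ 4 * D / N ≤ 2 * s := by
    calc 2 * (k:ℝ) ^ 4 * D / N = 2 * (k:ℝ)^4 * (D / N) := by ring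
      _ ≤ 2 * (k:ℝ)^4 * (1 / s ^ 7) := by gcongr
      _ = 2 * s := by rw [← hsk]; field_simp
  have b4 : (k:ℝ) ^ 3 * D / N ≤ s := by
    calc (k:ℝ) ^ 3 * D / N = (k:ℝ)^3 * (D / N) := by ring
      _ ≤ (k:ℝ)^3 * (1 / s ^ 7) := by gcongr
      _ = 1 / s := by rw [← hsk]; field_simp
      _ ≤ s := by rw [div_le_iff₀ hs0]; nlinarith
  have hI3 : (2:ℝ) ^ I * (14 * δ) ≤ s := by
    rwa [le_div_iff₀ (by linarith)] at hI1
  have hI4 : (2:ℝ) ^ I ≤ s := by
    have : (0:ℝ) < 2 ^ I := by positivity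
    nlinarith
  have b5 : 8 * 2 ^ I * (k:ℝ) * D / N ≤ 1 := by
    calc 8 * 2 ^ I * (k:ℝ) * D / N = 8 * 2 ^ I * (k:ℝ) * (D / N) := by ring
      _ ≤ 8 * s * (k:ℝ) * (1 / s ^ 7) := by gcongr
      _ = 8 / s ^ 4 := by rw [← hsk]; field_simp
      _ ≤ 1 := by
          rw [div_le_one (by positivity)]
          have : (36:ℝ)^4 ≤ s ^ 4 := pow_le_pow_left₀ (by norm_num) hs36 4
          linarith
  have b6 : (s + δ) ^ 2 - k = 2 * δ * s + δ ^ 2 := by rw [← hsk]; ring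
  have b7 : pm N k (Nat.sqrt (k^3) + 2) (s + δ) ≤ 6 * δ / s := by
    unfold pm
    rw [← hD, b6]
    have hk1 : (0:ℝ) < 2 * (k - 1) := by rw [← hsk]; nlinarith
    rw [div_le_div_iff₀ hk1 hs0]
    have h1 : 2 * δ * s + δ ^ 2 + 2 * k ^ 4 * D / N + k ^ 2 / (D - 1) ≤ 6 * δ * s := by nlinarith
    calc _ ≤ 6 * δ * s * s := by gcongr
      _ = 6 * δ * k := by rw [← hsk]; ring
      _ ≤ 6 * δ * (2 * (k - 1)) := by
          have : (k:ℝ) ≤ 2 * (k - 1) := by rw [← hsk]; nlinarith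
          gcongr
  have b8 : 1 / s ^ 3 ≤ δ / s := by
    rw [div_le_div_iff₀ hs3 hs0]
    nlinarith [pow_pos hs0 3, pow_pos hs0 2]
  have b9 : 2 * 2 ^ I * (1 / (D - 1) + pm N k (Nat.sqrt (k^3) + 2) (s + δ)) ≤ 1 := by
    calc _ ≤ 2 * 2 ^ I * (δ / s + 6 * δ / s) := by
          have : 1 / (D - 1) + pm N k (Nat.sqrt (k^3) + 2) (s + δ) ≤ δ / s + 6 * δ / s := by
            linarith
          gcongr
      _ = (2 ^ I * (14 * δ)) / s := by ring
      _ ≤ 1 := by rw [div_le_one hs0]; exact hI3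
  have b10 : 16 * ((((s + δ) ^ 2 - k) + k ^ 2 / (D - 1) + k ^ 3 * D / N) / (s + δ)) ≤
      16 * (2 * δ + 2) := by
    rw [b6]
    have : (2 * δ * s + δ ^ 2 + k ^ 2 / (D - 1) + k ^ 3 * D / N) / (s + δ) ≤ 2 * δ + 2 := by
      rw [div_le_iff₀ (by linarith)]
      nlinarith
    linarith
  have hfin : (I:ℝ) ≤ 16 * δ + 17 := by linarith
  -- the other direction
  have hlog : Real.log (s / (14 * δ)) < (I + 1) * Real.log 2 := by
    have h1 := Real.log_lt_log (by positivity) hI2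
    rw [Real.log_pow] at h1
    push_cast at h1
    exact h1
  have hl2 : Real.log 2 < 0.6931471808 := Real.log_two_lt_d9
  have hl20 : 0 < Real.log 2 := Real.log_pos (by norm_num)
  have hlog2 : Real.log (s / (14 * δ)) = 25 * δ / 2 - Real.log 14 - Real.log δ := by
    rw [Real.log_div hs0.ne' (by positivity), Real.log_mul (by norm_num) (by positivity)]
    have : Real.log s = 25 * δ / 2 := by rw [hδ, hlogs]; ring
    rw [this]; ring
  have hld : Real.log δ ≤ δ - 1 := Real.log_le_sub_one_of_pos (by linarith)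
  have hl14 : Real.log 14 ≤ 3 := by
    have : Real.log 14 ≤ Real.log (2^4) := Real.log_le_log (by norm_num) (by norm_num)
    rw [Real.log_pow] at this
    push_cast at this
    linarith
  rw [hlog2] at hlog
  have : ((I:ℝ) + 1) * Real.log 2 ≤ (16 * δ + 18) * 0.6931471808 := by
    apply mul_le_mul (by linarith) hl2.le hl20.le (by linarith)
  linarith

/-- Large k. -/
theorem large (k N : ℕ) (hk : 900 ≤ Real.log k) (hN : 3 * k ^ 5 ≤ N) (F : ℕ → ℤ)
    (hF : ∀ n, 1 ≤ n → n ≤ N → F n = 1 ∨ F n = -1) :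
    ∃ a d : ℕ, 1 ≤ a ∧ 1 ≤ d ∧ a + (k-1) * d ≤ N ∧
      √k + Real.log k / 25 < |((∑ j ∈ range k, F (a + j * d) : ℤ) : ℝ)| := by
  by_contra hcon
  push Not at hcon
  have hk0 : (0:ℝ) < k := by
    by_contra h
    have : (k:ℝ) = 0 := le_antisymm (not_lt.1 h) (Nat.cast_nonneg k)
    rw [this, Real.log_zero] at hk
    linarith
  have hlogk : Real.log k ≤ k - 1 := Real.log_le_sub_one_of_pos hk0
  have hk2 : 2 ≤ k := by
    have : (2:ℝ) ≤ k := by linarith
    exact_mod_cast this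
  have hN0 : N ≠ 0 := by
    have : 0 < k ^ 5 := by positivity
    omega
  have : NeZero N := ⟨hN0⟩
  set f : ZMod N → ℝ := fun x => ((F (x.val + 1) : ℤ) : ℝ) with hf
  have hf2 : ∀ x, f x ^ 2 = 1 := by
    intro x
    have hx := ZMod.val_lt x
    rcases hF (x.val + 1) (by omega) (by omega) with h | h <;> simp [hf, h]
  have hin : ∀ (a : ZMod N) (t : ℕ), 1 ≤ t → a.val + (k-1)*t < N →
      |X f k a t| ≤ √k + Real.log k / 25 := by
    intro a t ht hat
    have h1 := hcon (a.val + 1) t (by omega) ht (by omega)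
    have h2 : X f k a t = ((∑ j ∈ range k, F (a.val + 1 + j * t) : ℤ) : ℝ) := by
      unfold X
      push_cast
      refine sum_congr rfl fun j hj => ?_
      have hj' := mem_range.1 hj
      have e : a + j * t = ((a.val + j * t : ℕ) : ZMod N) := by
        push_cast; rw [ZMod.natCast_zmod_val]
      have e2 : (a + (j : ZMod N) * t).val = a.val + j * t := by
        rw [e, ZMod.val_natCast]
        apply Nat.mod_eq_of_lt
        have : j * t ≤ (k - 1) * t := Nat.mul_le_mul_right t (by omega)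
        omega
      simp only [hf]
      rw [e2]
      congr 2
      ring
    rw [h2]; exact h1
  -- choice of I
  have hs0 : 0 < √(k:ℝ) := Real.sqrt_pos.2 hk0
  have hsk : √(k:ℝ) ^ 2 = k := Real.sq_sqrt hk0.le
  have hlogs : Real.log k = 2 * Real.log (√(k:ℝ)) := by
    conv_lhs => rw [← hsk]
    rw [Real.log_pow]; norm_num
  have hx : 1 ≤ √(k:ℝ) / (14 * (Real.log k / 25)) := by
    rw [le_div_iff₀ (by linarith), one_mul]
    have : Real.log (√(k:ℝ) / 2) ≤ √(k:ℝ) / 2 - 1 := Real.log_le_sub_one_of_pos (by positivity)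
    rw [Real.log_div hs0.ne' (by norm_num)] at this
    have h2 : Real.log 2 < 0.6931471808 := Real.log_two_lt_d9
    have h3 : Real.log (√(k:ℝ)) ≤ √(k:ℝ) / 2 := by linarith
    rw [hlogs]; linarith
  obtain ⟨I, hI1, hI2⟩ := exists_nat_pow_near hx (show (1:ℝ) < 2 by norm_num)
  have hI3 : (2:ℝ) ^ I * 14 ≤ √(k:ℝ) := by
    rw [le_div_iff₀ (by linarith)] at hI1
    have : (0:ℝ) < 2 ^ I := by positivity
    nlinarith
  have hs1 : 1 ≤ √(k:ℝ) := by
    have : (1:ℝ) ≤ 2 ^ I := one_le_pow₀ (by norm_num)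
    linarith
  have hIk : 2 ^ I ≤ k := by
    have : (2:ℝ) ^ I ≤ k := by
      have : (0:ℝ) < 2 ^ I := by positivity
      nlinarith
    exact_mod_cast this
  have hpos : (0:ℝ) < 2 ^ I := by positivity
  have hmain := main_ineq f hf2 k (Nat.sqrt (k^3) + 2) hk2 (by omega) (√k + Real.log k / 25)
    hin I hIk (by linarith) (by nlinarith)
  exact numeric k N hk hN I hI1 hI2 hmain

/-- Final statement. -/
theorem final : ∃ C : ℕ, ∀ k : ℕ, 1 ≤ k → ∀ N : ℕ, C * k ^ 5 ≤ N → ∀ F : ℕ → ℤ,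
    (∀ n, 1 ≤ n → n ≤ N → F n = 1 ∨ F n = -1) →
    ∃ a d : ℕ, 1 ≤ a ∧ 1 ≤ d ∧ a + (k-1) * d ≤ N ∧
      √k + Real.log k / 25 ≤ |((∑ j ∈ range k, F (a + j * d) : ℤ) : ℝ)| := by
  have hv : ∀ k : ℕ, ∃ M : ℕ, 1 ≤ k → ∀ N ≥ M, ∀ F : ℕ → ℤ,
    (∀ n, 1 ≤ n → n ≤ N → F n = 1 ∨ F n = -1) →
    ∃ a d : ℕ, 1 ≤ a ∧ 1 ≤ d ∧ a + (k-1) * d ≤ N ∧ |∑ j ∈ range k, F (a + j * d)| = k := by
    intro k
    by_cases hk : 1 ≤ k
    · obtain ⟨M, hM⟩ := vdw k hk
      exact ⟨M, fun _ => hM⟩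
    · exact ⟨0, fun h => absurd h hk⟩
  choose M hM using hv
  set K := ⌈Real.exp 900⌉₊ with hK
  refine ⟨3 + ∑ k ∈ range K, M k, fun k hk N hN F hF => ?_⟩
  rcases lt_or_ge k K with hkK | hkK
  · have h1 : M k ≤ N := by
      have h2 : M k ≤ ∑ k ∈ range K, M k := single_le_sum (fun _ _ => Nat.zero_le _)
        (mem_range.2 hkK)
      have h3 : 1 ≤ k ^ 5 := Nat.one_le_pow _ _ hk
      nlinarith
    obtain ⟨a, d, ha, hd, had, hs⟩ := hM k hk N h1 F hF
    refine ⟨a, d, ha, hd, had, ?_⟩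
    have h4 : |((∑ j ∈ range k, F (a + j * d) : ℤ) : ℝ)| = k := by exact_mod_cast hs
    rw [h4]
    have hk0 : (0:ℝ) < k := by exact_mod_cast hk
    have hk1 : (1:ℝ) ≤ k := by exact_mod_cast hk
    have hs0 : 0 < √(k:ℝ) := Real.sqrt_pos.2 hk0
    have hsk : √(k:ℝ) ^ 2 = k := Real.sq_sqrt hk0.le
    have hs1 : 1 ≤ √(k:ℝ) := Real.one_le_sqrt.2 hk1
    have hlogs : Real.log k = 2 * Real.log (√(k:ℝ)) := by
      conv_lhs => rw [← hsk]
      rw [Real.log_pow]; norm_num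
    have hls : Real.log (√(k:ℝ)) ≤ √(k:ℝ) - 1 := Real.log_le_sub_one_of_pos hs0
    nlinarith
  · have h1 : 900 ≤ Real.log k := by
      have h2 : Real.exp 900 ≤ k := (Nat.le_ceil _).trans (by exact_mod_cast hkK)
      have := Real.log_le_log (Real.exp_pos 900) h2
      rwa [Real.log_exp] at this
    have h2 : 3 * k ^ 5 ≤ N := by
      refine le_trans ?_ hN
      exact Nat.mul_le_mul_right _ (by omega)
    obtain ⟨a, d, ha, hd, had, hs⟩ := large k N h1 h2 F hF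
    exact ⟨a, d, ha, hd, had, hs.le⟩

end Pool.Agent.H154R5.NK
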